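import Pool.Agent.Helper69.TC.Symm

/-!
Deterministic enclosure statement of the three-colour growth: if the origin is not green by time
`L + D + 4` (and nothing exceptional happens in the box of radius `R`), it is never green.
-/

set_option autoImplicit false

namespace Pool.Agent.Helper69.TC

namespace Encl

variable {seed : Site → Option Color} {A : Site → Color → ℕ → Prop}

theorem blue_seed (hG : Growth seed A) {n : ℕ} :
    ∀ {z : Site}, A z Color.blue n →
      ∃ b : ℤ, seed (b, z.2) = some Color.blue ∧ (z.1 - b).natAbs ≤ n := by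
  induction n with
  | zero => intro z h; exact ⟨z.1, (hG.init z _).mp h, by simp⟩
  | succ n ih =>
    intro z h
    obtain ⟨y, hy, hyA⟩ := hG.pred h
    obtain ⟨b, hb, hd⟩ := ih hyA
    simp only [Adj] at hy
    rcases hy with rfl | rfl
    · exact ⟨b, hb, by simp only at hd; omega⟩
    · exact ⟨b, hb, by simp only at hd; omega⟩

theorem red_seed (hG : Growth seed A) {n : ℕ} :
    ∀ {z : Site}, A z Color.red n →
      ∃ b : ℤ, seed (z.1, b) = some Color.red ∧ (z.2 - b).natAbs ≤ n := by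
  induction n with
  | zero => intro z h; exact ⟨z.2, (hG.init z _).mp h, by simp⟩
  | succ n ih =>
    intro z h
    obtain ⟨y, hy, hyA⟩ := hG.pred h
    obtain ⟨b, hb, hd⟩ := ih hyA
    simp only [Adj] at hy
    rcases hy with rfl | rfl
    · exact ⟨b, hb, by simp only at hd; omega⟩
    · exact ⟨b, hb, by simp only at hd; omega⟩

theorem ext_interval (P : ℕ → Prop) (h0 : P 0) (M : ℕ) :
    ∃ a ≤ M, (∀ x ≤ a, P x) ∧ (a = M ∨ ¬ P (a + 1)) := by
  induction M with
  | zero =>
    refine ⟨0, le_rfl, ?_, Or.inl rfl⟩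
    intro x hx
    rw [Nat.le_zero.mp hx]
    exact h0
  | succ M ih =>
    obtain ⟨a, ha, hP, h | h⟩ := ih
    · subst h
      by_cases h1 : P (a + 1)
      · refine ⟨a + 1, le_rfl, ?_, Or.inl rfl⟩
        intro x hx
        rcases Nat.lt_or_ge x (a + 1) with h2 | h2
        · exact hP x (by omega)
        · rw [show x = a + 1 by omega]; exact h1
      · exact ⟨a, by omega, hP, Or.inr h1⟩
    · exact ⟨a, by omega, hP, Or.inr h⟩

/-- `z` is not coloured by time `T`. -/
def Unc (A : Site → Color → ℕ → Prop) (T : ℕ) (z : Site) : Prop := ∀ c n, n ≤ T → ¬ A z c n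

theorem Unc.mono {T T' : ℕ} {z : Site} (h : Unc A T z) (hT : T' ≤ T) : Unc A T' z :=
  fun c n hn => h c n (le_trans hn hT)

/-- A coloured neighbour which may spread to `z` contradicts that `z` is uncoloured. -/
theorem Unc.nb (hG : Growth seed A) {T n : ℕ} {y z : Site} {c : Color} (h : Unc A (T + 1) z)
    (hn : n ≤ T) (hy : A y c n) (hadj : Adj c y z) : False := by
  obtain ⟨c', n', hn', h'⟩ := hG.spread hy hadj
  exact h c' n' (by omega) h'

/-- Going one step along free sites. -/
theorem Unc.step (hG : Growth seed A) {L T : ℕ} {y z : Site}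
    (hwz : ∀ n, L + 1 ≤ n → n ≤ T → ¬ A z Color.blue n ∧ ¬ A z Color.red n)
    (hfree : Unc A L z) (hadj : Adj Color.green z y) (h : Unc A (T + 1) y) : Unc A T z := by
  intro c n hn hz
  rcases Nat.lt_or_ge L n with h1 | h1
  · have h2 := hwz n h1 hn
    cases c with
    | blue => exact h2.1 hz
    | red => exact h2.2 hz
    | green => exact h.nb hG hn hz hadj
  · exact hfree c n h1 hz

/-- A horizontal neighbour of `(x, y)` is uncoloured by time `T`. -/
def NbX (A : Site → Color → ℕ → Prop) (T : ℕ) (x y : ℤ) : Prop :=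
  ∃ x' : ℤ, (x' = x + 1 ∨ x' = x - 1) ∧ Unc A T (x', y)

/-- A vertical neighbour of `(x, y)` is uncoloured by time `T`. -/
def NbY (A : Site → Color → ℕ → Prop) (T : ℕ) (x y : ℤ) : Prop :=
  ∃ y' : ℤ, (y' = y + 1 ∨ y' = y - 1) ∧ Unc A T (x, y')

end Encl

open Encl in
/-- The four sides, once they are coloured blue (top, bottom) and red (left, right), enclose the
rectangle. -/
theorem Encl.closed {seed : Site → Option Color} {A : Site → Color → ℕ → Prop}
    (hG : Growth seed A) {a1 a2 b1 b2 : ℤ}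
    (hfree : ∀ x y : ℤ, -a2 ≤ x → x ≤ a1 → -b2 ≤ y → y ≤ b1 → ∀ c, ¬ A (x, y) c 0)
    (htop : ∀ x : ℤ, -a2 ≤ x → x ≤ a1 → ∃ n, A (x, b1 + 1) Color.blue n)
    (hbot : ∀ x : ℤ, -a2 ≤ x → x ≤ a1 → ∃ n, A (x, -b2 - 1) Color.blue n)
    (hright : ∀ y : ℤ, -b2 ≤ y → y ≤ b1 → ∃ n, A (a1 + 1, y) Color.red n)
    (hleft : ∀ y : ℤ, -b2 ≤ y → y ≤ b1 → ∃ n, A (-a2 - 1, y) Color.red n) (n : ℕ) :
    ∀ x y : ℤ, -a2 ≤ x → x ≤ a1 → -b2 ≤ y → y ≤ b1 → ∀ c, ¬ A (x, y) c n := by
  induction n with
  | zero => exact hfree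
  | succ n ih =>
    intro x y h1 h2 h3 h4 c hA
    obtain ⟨w, hw, hwA⟩ := hG.pred hA
    -- a horizontal neighbour
    have hr : w = (x + 1, y) → c = Color.red := by
      rintro rfl
      by_cases hx : x + 1 ≤ a1
      · exact absurd hwA (ih (x + 1) y (by omega) hx h3 h4 c)
      · obtain ⟨m, hm⟩ := hright y h3 h4
        rw [show x + 1 = a1 + 1 by omega] at hwA
        exact hG.color_eq hwA hm
    have hl : w = (x - 1, y) → c = Color.red := by
      rintro rfl
      by_cases hx : -a2 ≤ x - 1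
      · exact absurd hwA (ih (x - 1) y hx (by omega) h3 h4 c)
      · obtain ⟨m, hm⟩ := hleft y h3 h4
        rw [show x - 1 = -a2 - 1 by omega] at hwA
        exact hG.color_eq hwA hm
    have ht : w = (x, y + 1) → c = Color.blue := by
      rintro rfl
      by_cases hy : y + 1 ≤ b1
      · exact absurd hwA (ih x (y + 1) h1 h2 (by omega) hy c)
      · obtain ⟨m, hm⟩ := htop x h1 h2
        rw [show y + 1 = b1 + 1 by omega] at hwA
        exact hG.color_eq hwA hm
    have hb : w = (x, y - 1) → c = Color.blue := by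
      rintro rfl
      by_cases hy : -b2 ≤ y - 1
      · exact absurd hwA (ih x (y - 1) h1 h2 hy (by omega) c)
      · obtain ⟨m, hm⟩ := hbot x h1 h2
        rw [show y - 1 = -b2 - 1 by omega] at hwA
        exact hG.color_eq hwA hm
    cases c with
    | blue =>
      rcases hw with h | h
      · exact Color.noConfusion (hr h)
      · exact Color.noConfusion (hl h)
    | red =>
      rcases hw with h | h
      · exact Color.noConfusion (ht h)
      · exact Color.noConfusion (hb h)
    | green =>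
      rcases hw with h | h | h | h
      · exact Color.noConfusion (hr h)
      · exact Color.noConfusion (hl h)
      · exact Color.noConfusion (ht h)
      · exact Color.noConfusion (hb h)

open Encl in
/-- A horizontal side just above or below a row `y0` of uncoloured sites is blue as soon as its
middle is coloured by time `L`. -/
theorem Encl.side_h {seed : Site → Option Color} {A : Site → Color → ℕ → Prop}
    (hG : Growth seed A) {L D : ℕ} {a1 a2 : ℕ} {y0 y1 : ℤ} (hy : y1 = y0 + 1 ∨ y1 = y0 - 1)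
    (hDa1 : a1 ≤ D) (hDa2 : a2 ≤ D) (hDy : y1.natAbs ≤ D)
    (hw : ∀ z : Site, z.1.natAbs ≤ D + 2 → z.2.natAbs ≤ D + 2 → ∀ n, L + 1 ≤ n → n ≤ L + D + 4 →
      ¬ A z Color.blue n ∧ ¬ A z Color.red n)
    (hrow : ∀ x : ℤ, -(a2 : ℤ) ≤ x → x ≤ a1 → Unc A (L + 2) (x, y0))
    (h0 : ¬ Unc A L (0, y1)) :
    ∀ x : ℤ, -(a2 : ℤ) ≤ x → x ≤ a1 → ∃ n ≤ L, A (x, y1) Color.blue n := by
  -- a coloured site of the side is blue
  have key : ∀ x : ℤ, -(a2 : ℤ) ≤ x → x ≤ a1 → ¬ Unc A L (x, y1) →
      ∃ n ≤ L, A (x, y1) Color.blue n := by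
    intro x h1 h2 h3
    unfold Unc at h3
    push Not at h3
    obtain ⟨c, n, hn, hA⟩ := h3
    have hU := (hrow x h1 h2).mono (show L + 1 ≤ L + 2 by omega)
    cases c with
    | blue => exact ⟨n, hn, hA⟩
    | red =>
      refine (hU.nb hG hn hA ?_).elim
      simp only [Adj, Prod.mk.injEq, true_and]
      exact hy
    | green =>
      refine (hU.nb hG hn hA ?_).elim
      simp only [Adj, Prod.mk.injEq, true_and]
      tauto
  -- a blue neighbour in the side makes the site coloured
  have stp : ∀ x x' : ℤ, (x' = x + 1 ∨ x' = x - 1) → -(a2 : ℤ) ≤ x → x ≤ a1 →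
      (∃ n ≤ L, A (x', y1) Color.blue n) → ∃ n ≤ L, A (x, y1) Color.blue n := by
    intro x x' hx h1 h2 ⟨n, hn, hA⟩
    refine key x h1 h2 ?_
    intro hU
    have h3 : Unc A (L + 1) (x, y1) := by
      refine Unc.step hG ?_ hU ?_ (hrow x h1 h2)
      · intro m hm1 hm2
        exact hw (x, y1) (by simp only; omega) (by simp only; omega) m hm1 (by omega)
      · simp only [Adj, Prod.mk.injEq, true_and]
        omega
    refine h3.nb hG hn hA ?_
    simp only [Adj, Prod.mk.injEq, and_true]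
    exact hx
  have hpos : ∀ m : ℕ, (m : ℤ) ≤ a1 → ∃ n ≤ L, A ((m : ℤ), y1) Color.blue n := by
    intro m
    induction m with
    | zero => intro _; exact key 0 (by omega) (by omega) h0
    | succ m ih =>
      intro hm
      exact stp _ _ (Or.inr (by push_cast; ring)) (by omega) hm (ih (by omega))
  have hneg : ∀ m : ℕ, (m : ℤ) ≤ a2 → ∃ n ≤ L, A (-(m : ℤ), y1) Color.blue n := by
    intro m
    induction m with
    | zero => intro _; exact key 0 (by omega) (by omega) h0
    | succ m ih =>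
      intro hm
      exact stp _ _ (Or.inl (by push_cast; ring)) (by omega) (by omega) (ih (by omega))
  intro x h1 h2
  rcases le_total 0 x with h | h
  · have := hpos x.toNat (by omega)
    rwa [Int.toNat_of_nonneg h] at this
  · have := hneg (-x).toNat (by omega)
    rwa [Int.toNat_of_nonneg (by omega), neg_neg] at this

open Encl in
/-- The same for vertical sides. -/
theorem Encl.side_v {seed : Site → Option Color} {A : Site → Color → ℕ → Prop}
    (hG : Growth seed A) {L D : ℕ} {b1 b2 : ℕ} {x0 x1 : ℤ} (hx : x1 = x0 + 1 ∨ x1 = x0 - 1)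
    (hDb1 : b1 ≤ D) (hDb2 : b2 ≤ D) (hDx : x1.natAbs ≤ D)
    (hw : ∀ z : Site, z.1.natAbs ≤ D + 2 → z.2.natAbs ≤ D + 2 → ∀ n, L + 1 ≤ n → n ≤ L + D + 4 →
      ¬ A z Color.blue n ∧ ¬ A z Color.red n)
    (hcol : ∀ y : ℤ, -(b2 : ℤ) ≤ y → y ≤ b1 → Unc A (L + 2) (x0, y))
    (h0 : ¬ Unc A L (x1, 0)) :
    ∀ y : ℤ, -(b2 : ℤ) ≤ y → y ≤ b1 → ∃ n ≤ L, A (x1, y) Color.red n := by
  have h := Encl.side_h (hG.swap) (L := L) (D := D) (a1 := b1) (a2 := b2) (y0 := x0) (y1 := x1)
    hx hDb1 hDb2 hDx (by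
      intro z h1 h2 n h3 h4
      have := hw (z.2, z.1) h2 h1 n h3 h4
      exact ⟨this.2, this.1⟩) (by
      intro y h1 h2 c n hn hA
      exact hcol y h1 h2 _ n hn hA) (by
      intro hU
      apply h0
      intro c n hn hA
      refine hU (swapC c) n hn ?_
      simp only [swapC_swapC]
      exact hA)
  exact h

/-- Deterministic enclosure statement. -/
theorem enclosure {seed : Site → Option Color} {A : Site → Color → ℕ → Prop} (hG : Growth seed A)
    {L S D R : ℕ} (hD : 4 * L + 4 * S + 8 ≤ D) (hR : D + L + 4 ≤ R)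
    (hb : ∀ x x' y : ℤ, x.natAbs ≤ R → x'.natAbs ≤ R → y.natAbs ≤ R →
      seed (x, y) = some Color.blue → seed (x', y) = some Color.blue → x = x')
    (hr : ∀ x y y' : ℤ, x.natAbs ≤ R → y.natAbs ≤ R → y'.natAbs ≤ R →
      seed (x, y) = some Color.red → seed (x, y') = some Color.red → y = y')
    (hw : ∀ z : Site, z.1.natAbs ≤ D + 2 → z.2.natAbs ≤ D + 2 → ∀ n, L + 1 ≤ n → n ≤ L + D + 4 →
      ¬ A z Color.blue n ∧ ¬ A z Color.red n)
    (hs : ∀ z : Site, z.1.natAbs ≤ D → z.2.natAbs ≤ D → ∃ w : Site, seed w ≠ none ∧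
      z.1 ≤ w.1 ∧ w.1 < z.1 + S ∧ z.2 ≤ w.2 ∧ w.2 < z.2 + S)
    (h0 : ∀ n ≤ L + D + 4, ¬ A (0, 0) Color.green n) :
    ∀ n, ¬ A (0, 0) Color.green n := by
  intro N hN
  -- the origin is uncoloured up to time `L + D + 4`
  have horig : Encl.Unc A (L + D + 4) (0, 0) := by
    intro c n hn hA
    have := hG.color_eq hA hN
    subst this
    exact h0 n hn hA
  obtain ⟨M, hM⟩ : ∃ M, M = 2 * L + S + 2 := ⟨_, rfl⟩
  have hf0 : Encl.Unc A L (0, 0) := horig.mono (by omega)
  obtain ⟨a1, ha1M, ha1, ha1'⟩ :=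
    Encl.ext_interval (fun x : ℕ => Encl.Unc A L ((x : ℤ), 0)) hf0 M
  obtain ⟨a2, ha2M, ha2, ha2'⟩ :=
    Encl.ext_interval (fun x : ℕ => Encl.Unc A L (-(x : ℤ), 0)) (by simpa using hf0) M
  obtain ⟨b1, hb1M, hb1, hb1'⟩ :=
    Encl.ext_interval (fun y : ℕ => Encl.Unc A L (0, (y : ℤ))) hf0 M
  obtain ⟨b2, hb2M, hb2, hb2'⟩ :=
    Encl.ext_interval (fun y : ℕ => Encl.Unc A L (0, -(y : ℤ))) (by simpa using hf0) M
  have hx : ∀ x : ℤ, -(a2 : ℤ) ≤ x → x ≤ a1 → Encl.Unc A L (x, 0) := by
    intro x h1 h2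
    rcases le_total 0 x with h | h
    · have := ha1 x.toNat (by omega)
      rwa [Int.toNat_of_nonneg h] at this
    · have := ha2 (-x).toNat (by omega)
      rwa [Int.toNat_of_nonneg (by omega), neg_neg] at this
  have hy : ∀ y : ℤ, -(b2 : ℤ) ≤ y → y ≤ b1 → Encl.Unc A L (0, y) := by
    intro y h1 h2
    rcases le_total 0 y with h | h
    · have := hb1 y.toNat (by omega)
      rwa [Int.toNat_of_nonneg h] at this
    · have := hb2 (-y).toNat (by omega)
      rwa [Int.toNat_of_nonneg (by omega), neg_neg] at this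
  -- the whole rectangle is uncoloured for a long time
  have rect : ∀ m : ℕ, ∀ x y : ℤ, -(a2 : ℤ) ≤ x → x ≤ a1 → -(b2 : ℤ) ≤ y → y ≤ b1 →
      x.natAbs + y.natAbs = m → Encl.Unc A (L + D + 4 - m) (x, y) := by
    intro m
    induction m with
    | zero =>
      intro x y _ _ _ _ h
      have h1 : x = 0 := by omega
      have h2 : y = 0 := by omega
      subst h1 h2
      exact horig
    | succ m ih =>
      intro x y h1 h2 h3 h4 h
      have hm : m + 1 ≤ 2 * M := by omega
      -- the horizontal and vertical neighbours towards the axes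
      have hX : x ≠ 0 → Encl.NbX A (L + D + 4 - m) x y := by
        intro hx0
        rcases lt_or_gt_of_ne hx0 with h5 | h5
        · exact ⟨x + 1, Or.inl rfl, ih (x + 1) y (by omega) (by omega) h3 h4 (by omega)⟩
        · exact ⟨x - 1, Or.inr rfl, ih (x - 1) y (by omega) (by omega) h3 h4 (by omega)⟩
      have hY : y ≠ 0 → Encl.NbY A (L + D + 4 - m) x y := by
        intro hy0
        rcases lt_or_gt_of_ne hy0 with h5 | h5
        · exact ⟨y + 1, Or.inl rfl, ih x (y + 1) h1 h2 (by omega) (by omega) (by omega)⟩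
        · exact ⟨y - 1, Or.inr rfl, ih x (y - 1) h1 h2 (by omega) (by omega) (by omega)⟩
      have hfree : Encl.Unc A L (x, y) := by
        by_cases hx0 : x = 0
        · subst hx0; exact hy y h3 h4
        by_cases hy0 : y = 0
        · subst hy0; exact hx x h1 h2
        obtain ⟨x', hx', hUx⟩ := hX hx0
        obtain ⟨y', hy', hUy⟩ := hY hy0
        intro c n hn hA
        cases c with
        | blue =>
          refine (hUx.mono (show L + 1 ≤ _ by omega)).nb hG hn hA ?_
          simp only [Adj, Prod.mk.injEq, and_true]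
          omega
        | red =>
          refine (hUy.mono (show L + 1 ≤ _ by omega)).nb hG hn hA ?_
          simp only [Adj, Prod.mk.injEq, true_and]
          omega
        | green =>
          refine (hUx.mono (show L + 1 ≤ _ by omega)).nb hG hn hA ?_
          simp only [Adj, Prod.mk.injEq, and_true]
          rcases hx' with rfl | rfl
          · right; left; ring
          · left; ring
      have hnb : ∃ w : Site, Adj Color.green (x, y) w ∧ Encl.Unc A (L + D + 4 - m) w := by
        by_cases hx0 : x = 0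
        · obtain ⟨y', hy', hUy⟩ := hY (by omega)
          refine ⟨(x, y'), ?_, hUy⟩
          simp only [Adj, Prod.mk.injEq, true_and]
          rcases hy' with rfl | rfl
          · right; right; right; ring
          · right; right; left; ring
        · obtain ⟨x', hx', hUx⟩ := hX hx0
          refine ⟨(x', y), ?_, hUx⟩
          simp only [Adj, Prod.mk.injEq, and_true]
          rcases hx' with rfl | rfl
          · right; left; ring
          · left; ring
      obtain ⟨w, hadj, hUw⟩ := hnb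
      refine Encl.Unc.step hG ?_ hfree hadj
        (by rwa [show L + D + 4 - (m + 1) + 1 = L + D + 4 - m by omega])
      intro n hn1 hn2
      exact hw (x, y) (by simp only; omega) (by simp only; omega) n hn1 (by omega)
  have rect2 : ∀ x y : ℤ, -(a2 : ℤ) ≤ x → x ≤ a1 → -(b2 : ℤ) ≤ y → y ≤ b1 →
      Encl.Unc A (L + 2) (x, y) := by
    intro x y h1 h2 h3 h4
    exact (rect _ x y h1 h2 h3 h4 rfl).mono (by omega)
  -- the four sides
  have top : b1 ≠ M → ∀ x : ℤ, -(a2 : ℤ) ≤ x → x ≤ a1 →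
      ∃ n ≤ L, A (x, (b1 : ℤ) + 1) Color.blue n := by
    intro hne
    refine Encl.side_h hG (D := D) (y0 := b1) (Or.inl rfl) (by omega) (by omega) (by omega) hw
      (fun x h1 h2 => rect2 x b1 h1 h2 (by omega) le_rfl) ?_
    have := hb1'.resolve_left hne
    simpa using this
  have bot : b2 ≠ M → ∀ x : ℤ, -(a2 : ℤ) ≤ x → x ≤ a1 →
      ∃ n ≤ L, A (x, -(b2 : ℤ) - 1) Color.blue n := by
    intro hne
    refine Encl.side_h hG (D := D) (y0 := -b2) (Or.inr rfl) (by omega) (by omega) (by omega) hw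
      (fun x h1 h2 => rect2 x (-b2) h1 h2 le_rfl (by omega)) ?_
    have := hb2'.resolve_left hne
    rw [show -(b2 : ℤ) - 1 = -((b2 + 1 : ℕ) : ℤ) by push_cast; ring]
    exact this
  have right : a1 ≠ M → ∀ y : ℤ, -(b2 : ℤ) ≤ y → y ≤ b1 →
      ∃ n ≤ L, A ((a1 : ℤ) + 1, y) Color.red n := by
    intro hne
    refine Encl.side_v hG (D := D) (x0 := a1) (Or.inl rfl) (by omega) (by omega) (by omega) hw
      (fun y h1 h2 => rect2 a1 y (by omega) le_rfl h1 h2) ?_
    have := ha1'.resolve_left hne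
    simpa using this
  have left : a2 ≠ M → ∀ y : ℤ, -(b2 : ℤ) ≤ y → y ≤ b1 →
      ∃ n ≤ L, A (-(a2 : ℤ) - 1, y) Color.red n := by
    intro hne
    refine Encl.side_v hG (D := D) (x0 := -a2) (Or.inr rfl) (by omega) (by omega) (by omega) hw
      (fun y h1 h2 => rect2 (-a2) y le_rfl (by omega) h1 h2) ?_
    have := ha2'.resolve_left hne
    rw [show -(a2 : ℤ) - 1 = -((a2 + 1 : ℕ) : ℤ) by push_cast; ring]
    exact this
  -- none of the four sides is cut off
  have hne : b1 ≠ M ∧ b2 ≠ M ∧ a1 ≠ M ∧ a2 ≠ M := by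
    have hsmall : a1 + a2 + 1 < S ∨ b1 + b2 + 1 < S := by
      by_contra hcon
      push Not at hcon
      obtain ⟨w, hwn, h1, h2, h3, h4⟩ := hs (-(a2 : ℤ), -(b2 : ℤ)) (by simp only; omega)
        (by simp only; omega)
      simp only at h1 h2 h3 h4
      obtain ⟨c, hc⟩ := Option.ne_none_iff_exists'.mp hwn
      exact rect2 w.1 w.2 h1 (by omega) h3 (by omega) c 0 (by omega) ((hG.init w c).mpr hc)
    rcases hsmall with h | h
    · have hr1 := right (by omega)
      have e1 := hr1 b1 (by omega) le_rfl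
      have e2 := hr1 (-b2) le_rfl (by omega)
      obtain ⟨n1, hn1, hA1⟩ := e1
      obtain ⟨n2, hn2, hA2⟩ := e2
      obtain ⟨s1, hs1, hd1⟩ := Encl.red_seed hG hA1
      obtain ⟨s2, hs2, hd2⟩ := Encl.red_seed hG hA2
      simp only at hs1 hs2 hd1 hd2
      have := hr _ s1 s2 (by omega) (by omega) (by omega) hs1 hs2
      omega
    · have hr1 := top (by omega)
      have e1 := hr1 a1 (by omega) le_rfl
      have e2 := hr1 (-a2) le_rfl (by omega)
      obtain ⟨n1, hn1, hA1⟩ := e1
      obtain ⟨n2, hn2, hA2⟩ := e2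
      obtain ⟨s1, hs1, hd1⟩ := Encl.blue_seed hG hA1
      obtain ⟨s2, hs2, hd2⟩ := Encl.blue_seed hG hA2
      simp only at hs1 hs2 hd1 hd2
      have := hb s1 s2 _ (by omega) (by omega) (by omega) hs1 hs2
      omega
  obtain ⟨n1, n2, n3, n4⟩ := hne
  refine Encl.closed hG (a1 := a1) (a2 := a2) (b1 := b1) (b2 := b2) ?_ ?_ ?_ ?_ ?_ N 0 0
    (by omega) (by omega) (by omega) (by omega) _ hN
  · intro x y h1 h2 h3 h4 c
    exact rect2 x y h1 h2 h3 h4 c 0 (by omega)
  · intro x h1 h2
    obtain ⟨n, _, h⟩ := top n1 x h1 h2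
    exact ⟨n, h⟩
  · intro x h1 h2
    obtain ⟨n, _, h⟩ := bot n2 x h1 h2
    exact ⟨n, h⟩
  · intro y h1 h2
    obtain ⟨n, _, h⟩ := right n3 y h1 h2
    exact ⟨n, h⟩
  · intro y h1 h2
    obtain ⟨n, _, h⟩ := left n4 y h1 h2
    exact ⟨n, h⟩

end Pool.Agent.Helper69.TC
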